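import Mathlib

/-! Numerical part of the formula lower bound, version with `12 * 2 ^ s ≤ n`. -/

set_option autoImplicit false

namespace Pool.Agent.Helper1.Form

theorem numeric12 : ∃ c : ℝ, 0 < c ∧ ∀ n L : ℕ, 2 ≤ n → 1 ≤ L →
    (∀ s : ℕ, 1 ≤ s → 12 * 2 ^ s ≤ n → n * (n / (2 * s)) * 4 ^ s ≤ 5 * L) →
    c * (n : ℝ) ^ 4 / Real.log n ≤ L := by
  refine ⟨1 / 1000000, by norm_num, fun n L hn hL H => ?_⟩
  have hlog2 : (1 : ℝ) / 2 ≤ Real.log 2 := by
    have := Real.log_two_gt_d9
    linarith
  have hnR : (2 : ℝ) ≤ n := by exact_mod_cast hn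
  have hlogn : Real.log 2 ≤ Real.log n := Real.log_le_log (by norm_num) hnR
  have hlogpos : 0 < Real.log n := by linarith
  have hLR : (1 : ℝ) ≤ L := by exact_mod_cast hL
  rw [div_le_iff₀ hlogpos]
  by_cases h24 : n < 24
  · have hn23 : (n : ℝ) ≤ 23 := by
      have : n ≤ 23 := by omega
      exact_mod_cast this
    have h4 : (n : ℝ) ^ 4 ≤ 23 ^ 4 := pow_le_pow_left₀ (by linarith) hn23 4
    have h5 : (1 : ℝ) / 2 ≤ L * Real.log n := by nlinarith
    nlinarith
  · push Not at h24
    set m := n / 12 with hm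
    have hm2 : 2 ≤ m := by omega
    set s := Nat.log 2 m with hs
    have hs1' : 2 ^ s ≤ m := Nat.pow_log_le_self 2 (by omega)
    have hs2' : m < 2 ^ (s + 1) := Nat.lt_pow_succ_log_self (by norm_num) m
    have hs1 : 1 ≤ s := by
      by_contra h
      push Not at h
      have h0 : s = 0 := by omega
      rw [h0] at hs2'
      norm_num at hs2'
      omega
    have hs12 : 12 * 2 ^ s ≤ n := by omega
    have hn24 : n < 24 * 2 ^ s := by
      have : 2 ^ (s + 1) = 2 * 2 ^ s := by rw [pow_succ]; ring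
      omega
    have h := H s hs1 hs12
    have h576 : n * n ≤ 576 * 4 ^ s := by
      have e : (576 : ℕ) * 4 ^ s = (24 * 2 ^ s) * (24 * 2 ^ s) := by
        rw [show (4 : ℕ) = 2 * 2 by norm_num, mul_pow]
        ring
      rw [e]
      exact Nat.mul_le_mul hn24.le hn24.le
    have hsle : s < 2 ^ s := Nat.lt_two_pow_self
    have hfl : n ≤ 4 * s * (n / (2 * s)) := by
      have hdn : 2 * s ≤ n := by omega
      have hd1 : 0 < 2 * s := by omega
      set d := 2 * s with hd
      have hq : 1 ≤ n / d := (Nat.one_le_div_iff hd1).2 hdn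
      have hmod := Nat.div_add_mod n d
      have hlt := Nat.mod_lt n hd1
      have : d ≤ d * (n / d) := Nat.le_mul_of_pos_right _ hq
      have e4 : 4 * s * (n / d) = 2 * (d * (n / d)) := by
        rw [hd]; ring
      rw [e4]
      omega
    have hcomb : n ^ 4 ≤ 11520 * s * L := by
      calc n ^ 4 = n * n * (n * n) := by ring
        _ ≤ n * (4 * s * (n / (2 * s))) * (576 * 4 ^ s) := by
            exact Nat.mul_le_mul (Nat.mul_le_mul_left _ hfl) h576
        _ = 2304 * s * (n * (n / (2 * s)) * 4 ^ s) := by ring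
        _ ≤ 2304 * s * (5 * L) := Nat.mul_le_mul_left _ h
        _ = 11520 * s * L := by ring
    have hcombR : (n : ℝ) ^ 4 ≤ 11520 * (s : ℝ) * L := by exact_mod_cast hcomb
    have hsl : (s : ℝ) ≤ 2 * Real.log n := by
      have h2 : (s : ℝ) * Real.log 2 ≤ Real.log n := by
        rw [← Real.log_pow]
        refine Real.log_le_log (by positivity) ?_
        have : 2 ^ s ≤ n := by omega
        exact_mod_cast this
      have h3 : (0 : ℝ) ≤ s := Nat.cast_nonneg s
      nlinarith
    have hL0 : (0 : ℝ) ≤ L := by linarith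
    have : (n : ℝ) ^ 4 ≤ 11520 * (2 * Real.log n) * L := by
      refine hcombR.trans ?_
      exact mul_le_mul_of_nonneg_right (mul_le_mul_of_nonneg_left hsl (by norm_num)) hL0
    nlinarith [mul_nonneg hL0 hlogpos.le]

end Pool.Agent.Helper1.Form
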